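import Pool.Agent.helper68.GB.Spec

/-!
# Project GB (MP_baa4d7_al), row LKZ: the sum over the pairs is the order of the group times `nlZ`
-/

set_option autoImplicit false

namespace Pool.Agent.GB

open Pool.Agent.helper58.DC Pool.Agent.DI Pool.Agent.GR Pool.Agent.OB Pool.Agent.DR Pool.Agent.FI Pool.Agent.FI3 Pool.Agent.FI4 Pool.Agent.LE Pool.Agent.BR

open Classical in
theorem LKZ_fs {α : Type} [Fintype α] (P : α → Prop) (f : α → ℂ) : ∑ᶠ t ∈ {t | P t}, f t = ∑ t, if P t then f t else 0 := by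
  rw [← Finset.sum_filter, ← finsum_mem_coe_finset]
  have h : ((Finset.univ.filter P : Finset α) : Set α) = {t | P t} := by
    ext t
    simp
  rw [h]

open Classical in
theorem LKZ_st {α : Type} [Fintype α] (P : α → Prop) (f : {t // P t} → ℂ) : ∑ᶠ t, f t = ∑ t, if h : P t then f ⟨t, h⟩ else 0 := by
  rw [finsum_eq_sum_of_fintype]
  have e1 : ∑ t, (if h : P t then f ⟨t, h⟩ else 0) = ∑ t ∈ Finset.univ.filter P, (if h : P t then f ⟨t, h⟩ else 0) := by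
    rw [Finset.sum_filter]
    refine Finset.sum_congr rfl fun t _ => ?_
    by_cases h : P t
    · rw [if_pos h]
    · rw [if_neg h, dif_neg h]
  rw [e1]
  refine Finset.sum_bij (fun t _ => t.1) ?_ ?_ ?_ ?_
  · intro t _
    exact Finset.mem_filter.2 ⟨Finset.mem_univ _, t.2⟩
  · intro a _ b _ hab
    exact Subtype.ext hab
  · intro b hb
    exact ⟨⟨b, (Finset.mem_filter.1 hb).2⟩, Finset.mem_univ _, rfl⟩
  · intro t _
    rw [dif_pos t.2]

theorem LKZ_mem {G : Type} [Group G] (u w : G) : w ∈ Cz (⊤ : Subgroup G) u ↔ u * w = w * u := by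
  unfold Cz
  rw [Subgroup.mem_inf, Subgroup.mem_centralizer_iff]
  constructor
  · rintro ⟨_, h⟩
    exact h u rfl
  · intro h
    refine ⟨Subgroup.mem_top _, ?_⟩
    rintro z rfl
    exact h

theorem LKZ_card {G : Type} [Group G] (u t : G) : Nat.card (Cz (⊤ : Subgroup G) (t * u * t⁻¹)) = Nat.card (Cz (⊤ : Subgroup G) u) := by
  refine Nat.card_congr ⟨fun w => ⟨t⁻¹ * w * t, ?_⟩, fun w => ⟨t * w * t⁻¹, ?_⟩, ?_, ?_⟩
  · have h := (LKZ_mem _ _).1 w.2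
    rw [LKZ_mem]
    calc u * (t⁻¹ * (w : G) * t) = t⁻¹ * (t * u * t⁻¹ * (w : G)) * t := by group
      _ = t⁻¹ * ((w : G) * (t * u * t⁻¹)) * t := by rw [h]
      _ = _ := by group
  · have h := (LKZ_mem _ _).1 w.2
    rw [LKZ_mem]
    calc t * u * t⁻¹ * (t * (w : G) * t⁻¹) = t * (u * (w : G)) * t⁻¹ := by group
      _ = t * ((w : G) * u) * t⁻¹ := by rw [h]
      _ = _ := by group
  · intro w
    refine Subtype.ext ?_
    change t * (t⁻¹ * (w : G) * t) * t⁻¹ = w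
    group
  · intro w
    refine Subtype.ext ?_
    change t⁻¹ * (t * (w : G) * t⁻¹) * t = w
    group

theorem LKZ_pow {G : Type} [Group G] (t u : G) (n : ℕ) : (t * u * t⁻¹) ^ n = t * u ^ n * t⁻¹ := conj_pow

theorem LKZ_el {G : Type} [Group G] (p : ℕ) (t u : G) : PEl p (t * u * t⁻¹) ↔ PEl p u := by
  unfold PEl
  constructor
  · rintro ⟨k, hk⟩
    refine ⟨k, ?_⟩
    rw [LKZ_pow] at hk
    have h : u ^ p ^ k = t⁻¹ * (t * u ^ p ^ k * t⁻¹) * t := by group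
    rw [h, hk]
    group
  · rintro ⟨k, hk⟩
    refine ⟨k, ?_⟩
    rw [LKZ_pow, hk]
    group

theorem LKZ_rg {G : Type} [Group G] (p : ℕ) (t u : G) : PReg p (t * u * t⁻¹) ↔ PReg p u := by
  unfold PReg
  have h : orderOf (t * u * t⁻¹) = orderOf u := by
    have h1 := MulEquiv.orderOf_eq (MulAut.conj t) u
    rwa [MulAut.conj_apply] at h1
  rw [h]

theorem LKZ_cm {G : Type} [Group G] (t u w : G) : (t * u * t⁻¹) * (t * w * t⁻¹) = (t * w * t⁻¹) * (t * u * t⁻¹) ↔ u * w = w * u := by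
  constructor
  · intro h
    calc u * w = t⁻¹ * ((t * u * t⁻¹) * (t * w * t⁻¹)) * t := by group
      _ = t⁻¹ * ((t * w * t⁻¹) * (t * u * t⁻¹)) * t := by rw [h]
      _ = _ := by group
  · intro h
    calc (t * u * t⁻¹) * (t * w * t⁻¹) = t * (u * w) * t⁻¹ := by group
      _ = t * (w * u) * t⁻¹ := by rw [h]
      _ = _ := by group

theorem LKZ_two {G : Type} [Group G] [Finite G] (M : Ideal (integralClosure ℤ ℂ)) (D T : Subgroup G) (θ : G → ℂ) (l : T →* ℂˣ)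
    (ψ : G → ℂ) (g u w : G) : THZ M D T θ l ψ (g * u * g⁻¹) (g * w * g⁻¹) = THZ M D T θ l ψ u w := by
  classical
  let _ : Fintype G := Fintype.ofFinite G
  unfold THZ
  rw [finsum_eq_sum_of_fintype, finsum_eq_sum_of_fintype]
  refine Fintype.sum_equiv (Equiv.mulRight g) _ _ fun t => ?_
  have e0 : (Equiv.mulRight g) t = t * g := rfl
  have e1 : t * (g * u * g⁻¹) * t⁻¹ = t * g * u * (t * g)⁻¹ := by group
  have e2 : t * (g * u * g⁻¹ * (g * w * g⁻¹)) * t⁻¹ = t * g * (u * w) * (t * g)⁻¹ := by group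
  rw [e0, e1, e2, LKZ_card]

theorem LKZ (hB2 : B2_stmt) : LKZ_stmt := by
  classical
  intro p M hM G _ _ D T x θ χ h l ψ hψ ψ' hψ'
  let _ : Fintype G := Fintype.ofFinite G
  refine ⟨?_, fun g u w => LKZ_two M D T θ l ψ g u w⟩
  have hcl : ∀ g t : G, ψ' (t * g * t⁻¹) = ψ' g := fun g t => ((hB2 G ⊤).2 ψ' hψ').2.1 g t (Subgroup.mem_top _)
  have hpD : ∀ v ∈ T, PEl p v := by
    intro v hv
    obtain ⟨k, hk⟩ := h.rt.dfa.pgrp ⟨v, h.tle hv⟩
    refine ⟨k, ?_⟩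
    have := congrArg Subtype.val hk
    simpa using this
  let Ψ : G × G → ℂ := fun z => if PEl p z.1 ∧ PReg p z.2 ∧ z.1 * z.2 = z.2 * z.1 then
    (T.relIndex D : ℂ) * ciT M D T θ z.1 / Nat.card (Cz (⊤ : Subgroup G) z.1) * lx T l z.1 *
      ev ψ (eS (Cz (⊤ : Subgroup G) z.1) (Bl M (Cz (⊤ : Subgroup G) z.1) θ)) (z.1 * z.2) * ψ' (z.1 * z.2)⁻¹ else 0
  have hnl : nlZ p M D T θ l ψ ψ' = ∑ z : G × G, Ψ z := by
    rw [Fintype.sum_prod_type]
    unfold nlZ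
    rw [LKZ_st (fun u : G => u ∈ T) (fun u : T => ciT M D T θ u * (l u : ℂ) * PP p M θ ψ ψ' u), Finset.mul_sum]
    refine Finset.sum_congr rfl fun u _ => ?_
    by_cases hu : u ∈ T
    · rw [dif_pos hu]
      have hl : lx T l u = ((l ⟨u, hu⟩ : ℂˣ) : ℂ) := by
        unfold lx
        rw [dif_pos hu]
      change (T.relIndex D : ℂ) * (ciT M D T θ u * ((l ⟨u, hu⟩ : ℂˣ) : ℂ) * PP p M θ ψ ψ' u) = _
      rw [← hl]
      unfold PP
      rw [LKZ_fs, mul_div_assoc', Finset.mul_sum, mul_div_assoc', Finset.mul_sum, Finset.sum_div]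
      refine Finset.sum_congr rfl fun w _ => ?_
      change _ = if PEl p u ∧ PReg p w ∧ u * w = w * u then
        (T.relIndex D : ℂ) * ciT M D T θ u / Nat.card (Cz (⊤ : Subgroup G) u) * lx T l u *
          ev ψ (eS (Cz (⊤ : Subgroup G) u) (Bl M (Cz (⊤ : Subgroup G) u) θ)) (u * w) * ψ' (u * w)⁻¹ else 0
      by_cases hw : w ∈ Cz (⊤ : Subgroup G) u ∧ PReg p w
      · rw [if_pos hw, if_pos ⟨hpD u hu, hw.2, (LKZ_mem _ _).1 hw.1⟩]
        ring
      · rw [if_neg hw, if_neg (fun hc => hw ⟨(LKZ_mem _ _).2 hc.2.2, hc.2.1⟩), mul_zero, mul_zero, zero_div]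
    · rw [dif_neg hu, mul_zero]
      symm
      refine Finset.sum_eq_zero fun w _ => ?_
      change (if PEl p u ∧ PReg p w ∧ u * w = w * u then
        (T.relIndex D : ℂ) * ciT M D T θ u / Nat.card (Cz (⊤ : Subgroup G) u) * lx T l u *
          ev ψ (eS (Cz (⊤ : Subgroup G) u) (Bl M (Cz (⊤ : Subgroup G) u) θ)) (u * w) * ψ' (u * w)⁻¹ else 0) = 0
      have hl : lx T l u = 0 := by
        unfold lx
        rw [dif_neg hu]
      rw [hl, mul_zero, zero_mul, zero_mul, ite_self]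
  have hR : ∑ᶠ z ∈ {z : G × G | PEl p z.1 ∧ PReg p z.2 ∧ z.1 * z.2 = z.2 * z.1}, THZ M D T θ l ψ z.1 z.2 * ψ' (z.1 * z.2)⁻¹ =
      ∑ z : G × G, ∑ t : G, Ψ (t * z.1 * t⁻¹, t * z.2 * t⁻¹) := by
    rw [LKZ_fs]
    refine Finset.sum_congr rfl fun z _ => ?_
    obtain ⟨u, w⟩ := z
    have hΨ : ∀ t : G, Ψ (t * u * t⁻¹, t * w * t⁻¹) = if PEl p u ∧ PReg p w ∧ u * w = w * u then
        (T.relIndex D : ℂ) * ciT M D T θ (t * u * t⁻¹) / Nat.card (Cz (⊤ : Subgroup G) u) * lx T l (t * u * t⁻¹) *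
          ev ψ (eS (Cz (⊤ : Subgroup G) (t * u * t⁻¹)) (Bl M (Cz (⊤ : Subgroup G) (t * u * t⁻¹)) θ)) (t * (u * w) * t⁻¹) * ψ' (u * w)⁻¹
        else 0 := by
      intro t
      change (if PEl p (t * u * t⁻¹) ∧ PReg p (t * w * t⁻¹) ∧ (t * u * t⁻¹) * (t * w * t⁻¹) = (t * w * t⁻¹) * (t * u * t⁻¹) then
        (T.relIndex D : ℂ) * ciT M D T θ (t * u * t⁻¹) / Nat.card (Cz (⊤ : Subgroup G) (t * u * t⁻¹)) * lx T l (t * u * t⁻¹) *
          ev ψ (eS (Cz (⊤ : Subgroup G) (t * u * t⁻¹)) (Bl M (Cz (⊤ : Subgroup G) (t * u * t⁻¹)) θ)) ((t * u * t⁻¹) * (t * w * t⁻¹)) *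
            ψ' ((t * u * t⁻¹) * (t * w * t⁻¹))⁻¹ else 0) = _
      have e1 : (t * u * t⁻¹) * (t * w * t⁻¹) = t * (u * w) * t⁻¹ := by group
      have e2 : ψ' ((t * u * t⁻¹) * (t * w * t⁻¹))⁻¹ = ψ' (u * w)⁻¹ := by
        have e3 : ((t * u * t⁻¹) * (t * w * t⁻¹))⁻¹ = t * (u * w)⁻¹ * t⁻¹ := by group
        rw [e3, hcl]
      by_cases hc : PEl p u ∧ PReg p w ∧ u * w = w * u
      · rw [if_pos hc, if_pos ⟨(LKZ_el p t u).2 hc.1, (LKZ_rg p t w).2 hc.2.1, (LKZ_cm t u w).2 hc.2.2⟩, LKZ_card, e2, e1]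
      · rw [if_neg hc, if_neg (fun hd => hc ⟨(LKZ_el p t u).1 hd.1, (LKZ_rg p t w).1 hd.2.1, (LKZ_cm t u w).1 hd.2.2⟩)]
    have hΨ' : ∑ t : G, Ψ (t * (u, w).1 * t⁻¹, t * (u, w).2 * t⁻¹) = ∑ t : G, Ψ (t * u * t⁻¹, t * w * t⁻¹) := rfl
    rw [hΨ', Finset.sum_congr rfl fun t _ => hΨ t]
    by_cases hc : PEl p u ∧ PReg p w ∧ u * w = w * u
    · rw [if_pos hc, Finset.sum_congr rfl fun t _ => if_pos hc, ← Finset.sum_mul]
      congr 1
      unfold THZ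
      rw [finsum_eq_sum_of_fintype]
    · rw [if_neg hc, Finset.sum_congr rfl fun t _ => if_neg hc, Finset.sum_const_zero]
  rw [hR, hnl, Finset.sum_comm]
  have hsh : ∀ t : G, ∑ z : G × G, Ψ (t * z.1 * t⁻¹, t * z.2 * t⁻¹) = ∑ z : G × G, Ψ z := by
    intro t
    let e : G × G ≃ G × G := Equiv.prodCongr (MulAut.conj t).toEquiv (MulAut.conj t).toEquiv
    exact Fintype.sum_equiv e _ _ (fun z => rfl)
  rw [Finset.sum_congr rfl fun t _ => hsh t, Finset.sum_const, nsmul_eq_mul, Finset.card_univ, Nat.card_eq_fintype_card]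

end Pool.Agent.GB
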